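import Mathlib
import Pool.Agent.U72.NP.Uniform

/-!
# Lehmer's problem and the angular discrepancy of the zeros

For `F ∈ ℤ[X]` of degree `n` let `N_F(x)` be the number of the complex zeros (on and off the unit
circle, with multiplicity) with argument larger than `x` turns, `0 ≤ x ≤ 1`.  The angular discrepancy
is the root mean square of `N_F(x) - n (1 - x) - b` (it is not divided by `n`; the shift `b` is
arbitrary).

1. There is an absolute constant `c > 0` such that every irreducible `f` with `M(f) > 1` satisfies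
   `log M(f) ≥ c / (1 + Δ) ^ 3`, where `Δ` is the angular discrepancy of `f` for any shift.
2. More generally `log M(f) ≥ c / (1 + r + log M(G) / t) ^ 3` whenever the zeros of `f` have mean
   square discrepancy at most `r` from the zeros of some `G ∈ ℤ[X]`, not divisible by `f`, each counted
   with weight `1 / t`.
3. For arbitrary (also reducible) `F` with angular discrepancy at most `r`: `M(F) = 1` or
   `M(F) ≥ μ(r) > 1`.
4. For arbitrary `F`, `G` with mean square discrepancy at most `r` and `M(G) ≤ L`: either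
   `M(F) ≥ μ(r, L) > 1`, or the measure of `F` comes from a common divisor of `F` and `G`.

Method.  Up to an error `2 log M(F)` in the mean, `log |F|` on the unit circle does not change when
the zeros are projected radially to the circle, and then it is the harmonic conjugate of `π` times
the discrepancy.  Hence `∫ log max (|F|, |G|) ≤ 3 max (log M(F), log M(G)) + 3 r`, and the Lehmer type
bounds for pairs of bounded height apply.
-/

set_option autoImplicit false

namespace Pool.Agent.Results.MP_dc0c68_nt.AngularDiscrepancy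

open Polynomial

noncomputable section

/-- The Mahler measure of an integer polynomial. -/
def mahler (F : ℤ[X]) : ℝ := (F.map (Int.castRingHom ℂ)).mahlerMeasure

/-- The argument of a complex number in turns, in the interval `[0, 1)`. -/
def turn (z : ℂ) : ℝ := Int.fract (Complex.arg z / (2 * Real.pi))

/-- The number of the complex zeros of `F`, counted with multiplicity, whose argument is larger than
`x` turns. -/
def above (F : ℤ[X]) (x : ℝ) : ℕ :=
  ((F.map (Int.castRingHom ℂ)).roots.filter (fun z => x < turn z)).card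

/-- The angular discrepancy of the zeros of `F` with shift `b`: the root mean square over `[0, 1]` of
`N(x) - n (1 - x) - b`, where `N(x)` is the number of zeros above `x` and `n` the degree. -/
def discrepancy (F : ℤ[X]) (b : ℝ) : ℝ :=
  Real.sqrt (∫ x in (0:ℝ)..1, ((above F x : ℝ) - F.natDegree * (1 - x) - b) ^ 2)

theorem result :
    (∃ c : ℝ, 0 < c ∧ ∀ f : ℤ[X], Irreducible f → 1 < mahler f →
      (∀ b : ℝ, c / (1 + discrepancy f b) ^ 3 ≤ Real.log (mahler f)) ∧
      (∀ (G : ℤ[X]) (t : ℕ) (r b : ℝ), 0 < t → 0 ≤ r → G.coeff 0 ≠ 0 → ¬ f ∣ G →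
        (G.natDegree : ℝ) ≤ t * (f.natDegree + r) →
        ∫ x in (0:ℝ)..1, ((t : ℝ) * above f x - above G x - b) ^ 2 ≤ (r * t) ^ 2 →
        c / (1 + r + Real.log (mahler G) / t) ^ 3 ≤ Real.log (mahler f))) ∧
    (∀ r : ℝ, ∃ μ : ℝ, 1 < μ ∧ ∀ (F : ℤ[X]) (b : ℝ), F.coeff 0 ≠ 0 → discrepancy F b ≤ r →
      mahler F = 1 ∨ μ ≤ mahler F) ∧
    (∀ r L : ℝ, 0 ≤ r → ∃ μ : ℝ, 1 < μ ∧ ∀ (F G : ℤ[X]) (b : ℝ), F.coeff 0 ≠ 0 →
      G.coeff 0 ≠ 0 → |(F.natDegree : ℝ) - G.natDegree| ≤ r →
      ∫ x in (0:ℝ)..1, ((above F x : ℝ) - above G x - b) ^ 2 ≤ r ^ 2 → mahler G ≤ L →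
      μ ≤ mahler F ∨ ∃ D : ℤ[X], D ∣ F ∧ D ∣ G ∧ mahler D = mahler F) := by
  obtain ⟨c1, hc1, h1⟩ := Pool.Agent.U72.NP.uniform_rate
  obtain ⟨c2, hc2, h2⟩ := Pool.Agent.U72.NP.rate
  refine ⟨⟨min c1 c2, lt_min hc1 hc2, fun f hf hM => ⟨fun b => ?_, ?_⟩⟩,
    fun r => Pool.Agent.U72.NP.uniform_gap r, fun r L hr => Pool.Agent.U72.NP.gap r L hr⟩
  · have h3 := h1 f b hf hM
    have h0 : 0 ≤ discrepancy f b := Real.sqrt_nonneg _
    exact (div_le_div_of_nonneg_right (min_le_left _ _) (by positivity)).trans h3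
  · intro G t r b ht hr hG hd hdeg hD
    have h3 := h2 f G t r b ht hr hf hM hG hd hdeg hD
    have hG0 : G ≠ 0 := by
      rintro rfl
      exact hG (coeff_zero 0)
    have hL : 0 ≤ Real.log (mahler G) :=
      Real.log_nonneg (Pool.Agent.H261R2.CM.I1_one_le_m1 hG0)
    have h4 : 0 ≤ Real.log (mahler G) / t := by positivity
    exact (div_le_div_of_nonneg_right (min_le_right _ _) (by positivity)).trans h3

end

end Pool.Agent.Results.MP_dc0c68_nt.AngularDiscrepancy
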