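import Mathlib
import Pool.Agent.U72.NP.IsoRate

/-!
# Lehmer's problem for isometries at bounded rank distance from an isometry of small measure

Let `S` be a nondegenerate Hermitian form on `ℂ ^ n` that is positive definite on a subspace of
codimension at most `κ`, and let `A`, `B` be isometries of `S` whose characteristic polynomials have
integer coefficients (for instance isometries of an integral lattice of signature `(n - κ, κ)`), with
`rank (A - B) ≤ s` (for instance `A = B r_1 ⋯ r_s` with reflections `r_i`).  The size `n` is arbitrary.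

1. If `χ_A` is irreducible, `χ_A ≠ χ_B` and `M(χ_A) > 1` then
   `log M(χ_A) ≥ c / (1 + κ + s + log M(χ_B)) ^ 3` with an absolute constant `c > 0`.
2. If `M(χ_B) ≤ L` then `M(χ_A) ≥ μ(κ, s, L) > 1`, or the measure of `χ_A` comes from a common
   divisor of `χ_A` and `χ_B`.
3. If `M(χ_B) = 1` (for instance if `B` has finite order) then `M(χ_A) = 1` or
   `M(χ_A) ≥ μ(κ, s) > 1`.

Method.  The form `V = S (1 - A)⁻¹` satisfies `V + V* = S` and `det (X V + V*) = det V χ_A(X)`.  The
number of zeros of `χ_A` on arcs of the unit circle differs by at most `κ` from the number of positive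
eigenvalues of the Hermitian matrices `e(t/2) V + e(-t/2) V*`, which changes by at most `s` when `A`
is replaced by `B`.  So the discrepancy between the zeros of `χ_A` and `χ_B` is at most
`6 κ + s` on every arc, and the pair has height at most
`3 max (log M(χ_A), log M(χ_B)) + 18 (κ + s)`.
-/

set_option autoImplicit false

namespace Pool.Agent.Results.MP_dc0c68_nt.IsometryPairs

open Polynomial Matrix

noncomputable section

/-- The Mahler measure of an integer polynomial. -/
def mahler (F : ℤ[X]) : ℝ := (F.map (Int.castRingHom ℂ)).mahlerMeasure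

/-- `S` is a nondegenerate Hermitian form, positive definite on a complex subspace of codimension at
most `κ`. -/
structure NearDefinite {n : ℕ} (S : Matrix (Fin n) (Fin n) ℂ) (κ : ℕ) : Prop where
  hermitian : Sᴴ = S
  nondegenerate : S.det ≠ 0
  positive : ∃ W : Submodule ℂ (Fin n → ℂ), n ≤ Module.finrank ℂ W + κ ∧
    ∀ x ∈ W, x ≠ 0 → 0 < (star x ⬝ᵥ (S *ᵥ x)).re

/-- `A` is an isometry of the form `S` with characteristic polynomial `F` with integer
coefficients. -/
structure IntegralIsometry {n : ℕ} (S A : Matrix (Fin n) (Fin n) ℂ) (F : ℤ[X]) : Prop where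
  isometry : Aᴴ * S * A = S
  charpoly : F.map (Int.castRingHom ℂ) = A.charpoly

lemma height {n κ s : ℕ} {S A B : Matrix (Fin n) (Fin n) ℂ} {F G : ℤ[X]}
    (hS : NearDefinite S κ) (hA : IntegralIsometry S A F) (hB : IntegralIsometry S B G)
    (hr : (A - B).rank ≤ s) :
    Pool.Agent.H261R2.CM.mx1 F G ≤ 3 * max (Real.log (mahler F)) (Real.log (mahler G)) +
      18 * (κ + s) := by
  obtain ⟨W, hW, hpos⟩ := hS.positive
  exact Pool.Agent.U72.NP.iso_pair hS.hermitian (isUnit_iff_ne_zero.mpr hS.nondegenerate)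
    hA.isometry hB.isometry ⟨W, by simpa using hW, hpos⟩ hr hA.charpoly hB.charpoly

lemma monic {n : ℕ} {S A : Matrix (Fin n) (Fin n) ℂ} {F : ℤ[X]} (hA : IntegralIsometry S A F) :
    F.Monic ∧ F.natDegree = n := by
  have h := hA.charpoly
  have hinj := RingHom.injective_int (Int.castRingHom ℂ)
  constructor
  · have h1 := Matrix.charpoly_monic A
    rw [← h] at h1
    exact monic_of_injective hinj h1
  · have h1 := Matrix.charpoly_natDegree_eq_dim A
    rw [← h, natDegree_map_eq_of_injective hinj, Fintype.card_fin] at h1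
    exact h1

theorem result :
    (∃ c : ℝ, 0 < c ∧ ∀ (n κ s : ℕ) (S A B : Matrix (Fin n) (Fin n) ℂ) (f G : ℤ[X]),
      NearDefinite S κ → IntegralIsometry S A f → IntegralIsometry S B G → (A - B).rank ≤ s →
      Irreducible f → f ≠ G → 1 < mahler f →
      c / (1 + κ + s + Real.log (mahler G)) ^ 3 ≤ Real.log (mahler f)) ∧
    (∀ (κ s : ℕ) (L : ℝ), ∃ μ : ℝ, 1 < μ ∧
      ∀ (n : ℕ) (S A B : Matrix (Fin n) (Fin n) ℂ) (F G : ℤ[X]),
        NearDefinite S κ → IntegralIsometry S A F → IntegralIsometry S B G → (A - B).rank ≤ s →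
        mahler G ≤ L → μ ≤ mahler F ∨ ∃ D : ℤ[X], D ∣ F ∧ D ∣ G ∧ mahler D = mahler F) ∧
    (∀ κ s : ℕ, ∃ μ : ℝ, 1 < μ ∧
      ∀ (n : ℕ) (S A B : Matrix (Fin n) (Fin n) ℂ) (F G : ℤ[X]),
        NearDefinite S κ → IntegralIsometry S A F → IntegralIsometry S B G → (A - B).rank ≤ s →
        mahler G = 1 → mahler F = 1 ∨ μ ≤ mahler F) := by
  have hgap : ∀ (κ s : ℕ) (L : ℝ), ∃ μ : ℝ, 1 < μ ∧
      ∀ (n : ℕ) (S A B : Matrix (Fin n) (Fin n) ℂ) (F G : ℤ[X]),
        NearDefinite S κ → IntegralIsometry S A F → IntegralIsometry S B G → (A - B).rank ≤ s →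
        mahler G ≤ L → μ ≤ mahler F ∨ ∃ D : ℤ[X], D ∣ F ∧ D ∣ G ∧ mahler D = mahler F := by
    intro κ s L
    obtain ⟨μ, hμ, h⟩ := Pool.Agent.U72.NP.gap_height (18 * (κ + s)) L
    refine ⟨μ, hμ, fun n S A B F G hS hA hB hr hL => ?_⟩
    exact h F G (monic hA).1.ne_zero (monic hB).1.ne_zero (height hS hA hB hr) hL
  refine ⟨?_, hgap, ?_⟩
  · obtain ⟨c, hc, h⟩ := Pool.Agent.U72.NP.pair_rate
    refine ⟨c / 18 ^ 3, by positivity, ?_⟩
    intro n κ s S A B f G hS hA hB hr hf hne hM
    obtain ⟨hm1, hd1⟩ := monic hA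
    obtain ⟨hm2, hd2⟩ := monic hB
    have hdvd : ¬ f ∣ G := by
      intro hd
      exact hne (eq_of_monic_of_dvd_of_natDegree_le hm1 hm2 hd (by rw [hd1, hd2])).symm
    have hL : 0 ≤ Real.log (mahler G) :=
      Real.log_nonneg (Pool.Agent.H261R2.CM.I1_one_le_m1 hm2.ne_zero)
    have h1 := h f G (18 * (κ + s)) (by positivity) hf hdvd hM (by rw [hd1, hd2])
      (height hS hA hB hr)
    refine le_trans ?_ h1
    rw [div_div, ← mul_pow]
    have hk : (0:ℝ) ≤ κ := Nat.cast_nonneg _
    have hs : (0:ℝ) ≤ s := Nat.cast_nonneg _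
    change c / (18 * (1 + κ + s + Real.log (mahler G))) ^ 3 ≤
      c / (1 + 18 * (κ + s) + Real.log (mahler G)) ^ 3
    apply div_le_div_of_nonneg_left hc.le (by positivity)
    apply pow_le_pow_left₀ (by positivity)
    linarith
  · intro κ s
    obtain ⟨μ, hμ, h⟩ := hgap κ s 1
    refine ⟨μ, hμ, fun n S A B F G hS hA hB hr hG => ?_⟩
    rcases h n S A B F G hS hA hB hr hG.le with h1 | ⟨D, hDF, hDG, hD⟩
    · right
      exact h1
    · left
      have h2 := Pool.Agent.U72.NP.m1_le_of_dvd (monic hB).1.ne_zero hDG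
      have h3 := Pool.Agent.H261R2.CM.I1_one_le_m1 (monic hA).1.ne_zero
      change mahler D ≤ mahler G at h2
      change 1 ≤ mahler F at h3
      linarith

end

end Pool.Agent.Results.MP_dc0c68_nt.IsometryPairs
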