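import Pool.Agent.U307.NT.Bin

/-!
# The norm threshold `3 / √2` for zeros and Mahler measures of determinants

Let `A` be a square matrix, of any size, of integer polynomials, and let `‖A‖` be the supremum of the
operator norms of the complex matrices `A(z)` over the unit circle `|z| = 1`. (A matrix of Laurent
polynomials is, up to a power of `X`, such a matrix, of the same norm.)

(1) If `‖A‖ < 3 / √2 = 2.12…` then the determinant of `A` is, up to a power of `X`, a product of
binomials `a + b X ^ k` with integers `a`, `b`. Hence, if it is not zero, its Mahler measure is a natural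
number, so it is `1` or at least `2 > M(L) = 1.17…`, and every zero of the determinant other than `0`
has a power which is a rational number.

(2) This is false above `3 / √2`: for EVERY integer polynomial `f` there is `C` such that for all `L ≥ 1`
some matrix with at most `C L` rows and norm at most `3 / √2 + 2 ^ (-L)` has the determinant `f`, up to
sign and powers of `X`. So below the threshold `3 / √2` the zeros are radicals of rational numbers, and
above it all algebraic numbers occur.

(3) So for each `ε > 0` the conjecture of Q1 is equivalent to its restriction to the determinants of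
the matrices of norm at most `3 / √2 + ε`; for the norms less than `3 / √2` it is true by (1).

Part (1) rests on the theorem `Q181.BD.bin_det` of the starting library (a structure theorem for
integral weighted graphs of norm less than `3 / √2`, for finitely supported vectors over the group ring
of a torsion-free abelian group), part (2) on its `Q181.BD.t_up`. New here (`Pool/Agent/U307/NT`):
the norm on the circle is the norm on finitely supported vectors, in both directions, the reduction to
polynomial matrices, the product formula and the zeros, and (3).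
-/

set_option autoImplicit false

namespace Pool.Agent.Results.MP_dc0c68_nt.NormThreshold

open Polynomial Pool.Agent.U307.NT

/-- The Mahler measure of an integer polynomial. -/
noncomputable def M (f : ℤ[X]) : ℝ := (f.map (Int.castRingHom ℂ)).mahlerMeasure

/-- Lehmer's polynomial. -/
noncomputable def lehmer : ℤ[X] := X ^ 10 + X ^ 9 - X ^ 7 - X ^ 6 - X ^ 5 - X ^ 4 - X ^ 3 + X + 1

/-- For all `z` on the unit circle the operator norm (for the Euclidean norms, acting on row vectors)
of the complex matrix `A(z)` is at most `c`. -/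
def NormOnCircleLE {n : ℕ} (A : Matrix (Fin n) (Fin n) ℤ[X]) (c : ℝ) : Prop :=
  ∀ z : ℂ, ‖z‖ = 1 → ∀ v : Fin n → ℂ,
    ∑ j, ‖∑ i, v i * aeval z (A i j)‖ ^ 2 ≤ c ^ 2 * ∑ i, ‖v i‖ ^ 2

theorem M_mul (f g : ℤ[X]) : M (f * g) = M f * M g := Pool.Agent.Q177.BD.mm_mul f g

theorem M_X_pow (n : ℕ) : M (X ^ n) = 1 := Pool.Agent.Q177.BD.mm_X_pow n

theorem M_neg (f : ℤ[X]) : M (-f) = M f := by
  have h : -f = C (-1) * f := by simp
  rw [h, M_mul]
  have h1 : M (C (-1)) = 1 := by
    have h2 := Pool.Agent.Q177.BD.mm_C (-1)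
    unfold Pool.Agent.Q177.BD.mm at h2
    unfold M
    rw [h2]
    simp
  rw [h1, one_mul]

theorem sharp (f : ℤ[X]) : ∃ K : ℕ, ∀ L : ℕ, 1 ≤ L →
    ∃ (n : ℕ) (A : Matrix (Fin n) (Fin n) ℤ[X]), n ≤ K * L ∧
      NormOnCircleLE A (3 / Real.sqrt 2 + (1 / 2) ^ L) ∧
      ∃ a b : ℕ, X ^ a * A.det = X ^ b * f ∨ X ^ a * A.det = -(X ^ b * f) := by
  obtain ⟨K, hK⟩ := Pool.Agent.Q181.BD.t_up (Multiplicative ℤ) (Pool.Agent.Q181.BD.lau f)
  refine ⟨K, fun L hL => ?_⟩
  obtain ⟨n, A, hn, hdet, hnorm⟩ := hK L hL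
  obtain ⟨B, T, hB⟩ := exists_poly_matrix A
  refine ⟨n, B, hn, ?_, ?_⟩
  · have h1 := normLE_smul A _ T hnorm
    rw [← hB] at h1
    intro z hz v
    exact circle_of_normLE B _ h1 z hz v
  · obtain ⟨u, hu⟩ := hdet
    obtain ⟨U, a, hU⟩ := Pool.Agent.Q177.BD.exists_lau
      (u : MonoidAlgebra ℤ (Multiplicative ℤ))
    obtain ⟨V, b, hV⟩ := Pool.Agent.Q177.BD.exists_lau
      ((u⁻¹ : (MonoidAlgebra ℤ (Multiplicative ℤ))ˣ) : MonoidAlgebra ℤ (Multiplicative ℤ))
    have hUV : U * V = X ^ (a + b) := by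
      apply Pool.Agent.Q177.BD.lau_inj
      rw [map_mul, hU, hV, Pool.Agent.Q177.BD.lau_X, Nat.cast_add, ← Pool.Agent.Q177.BD.tt_mul]
      have := u.mul_inv
      linear_combination (Pool.Agent.Q177.BD.tt a * Pool.Agent.Q177.BD.tt b) * this
    have hdetB : Pool.Agent.Q181.BD.lau B.det =
        Pool.Agent.Q181.BD.lau (X ^ (T * n)) * A.det := by
      have h2 : (B.map Pool.Agent.Q181.BD.lau).det = Pool.Agent.Q181.BD.lau B.det := by
        rw [← RingHom.mapMatrix_apply, ← RingHom.map_det]
      have h3 : (A.map fun a => Pool.Agent.Q177.BD.tt T * a) = Pool.Agent.Q177.BD.tt T • A := by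
        ext1 i j
        rfl
      rw [← h2, hB, h3, Matrix.det_smul, Fintype.card_fin, pow_mul, map_pow,
        Pool.Agent.Q177.BD.lau_X]
    have h4 : B.det * U = X ^ (T * n + a) * f := by
      apply Pool.Agent.Q177.BD.lau_inj
      rw [map_mul, map_mul, hdetB, hU, ← hu, pow_add, map_mul,
        Pool.Agent.Q177.BD.lau_X a]
      ring
    obtain ⟨i, _, hi⟩ := (dvd_prime_pow prime_X _).1 (Dvd.intro V hUV)
    obtain ⟨w, hw⟩ := hi
    have hw1 : (w : ℤ[X]) = 1 ∨ (w : ℤ[X]) = -1 := by
      obtain ⟨r, hr, hrw⟩ := Polynomial.isUnit_iff.1 w.isUnit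
      rcases Int.isUnit_iff.1 hr with h5 | h5
      · left
        rw [← hrw, h5, C_1]
      · right
        rw [← hrw, h5, C_neg, C_1]
    refine ⟨i, T * n + a, ?_⟩
    have h6 : X ^ i * B.det = X ^ (T * n + a) * f * (w : ℤ[X]) := by
      rw [← hw, ← h4]
      ring
    rcases hw1 with h7 | h7
    · left
      rw [h6, h7, mul_one]
    · right
      rw [h6, h7, mul_neg, mul_one]

theorem result :
    -- (1) below the threshold
    (∀ (n : ℕ) (A : Matrix (Fin n) (Fin n) ℤ[X]) (c : ℝ), 0 ≤ c → c < 3 / Real.sqrt 2 →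
      NormOnCircleLE A c →
        (∃ (m : ℕ) (s : Multiset (ℤ × ℤ × ℕ)),
          X ^ m * A.det = (s.map fun t => C t.1 + C t.2.1 * X ^ t.2.2).prod) ∧
        (A.det ≠ 0 → ∃ N : ℕ, 1 ≤ N ∧ M A.det = N) ∧
        (A.det ≠ 0 → ∀ z : ℂ, z ≠ 0 → aeval z A.det = 0 →
          ∃ k : ℕ, 1 ≤ k ∧ ∃ q : ℚ, z ^ k = q)) ∧
    -- (2) above the threshold every integer polynomial occurs
    (∀ f : ℤ[X], ∃ K : ℕ, ∀ L : ℕ, 1 ≤ L →
      ∃ (n : ℕ) (A : Matrix (Fin n) (Fin n) ℤ[X]), n ≤ K * L ∧
        NormOnCircleLE A (3 / Real.sqrt 2 + (1 / 2) ^ L) ∧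
        ∃ a b : ℕ, X ^ a * A.det = X ^ b * f ∨ X ^ a * A.det = -(X ^ b * f)) ∧
    -- (3) the conjecture is equivalent to its restriction to norms slightly above the threshold
    (∀ ε : ℝ, 0 < ε →
      ((∀ f : ℤ[X], 1 < M f → M lehmer ≤ M f) ↔
        ∀ (n : ℕ) (A : Matrix (Fin n) (Fin n) ℤ[X]), NormOnCircleLE A (3 / Real.sqrt 2 + ε) →
          1 < M A.det → M lehmer ≤ M A.det)) := by
  refine ⟨fun n A c hc0 hc hA => ?_, sharp, fun ε hε => ⟨fun h n A _ hA => h _ hA, fun h f hf => ?_⟩⟩
  · have hbin := bin_lau_det A c hc0 hc hA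
    refine ⟨prod_of_bin hbin, fun h0 => ?_, fun h0 z hz hz0 => ?_⟩
    · exact Pool.Agent.Q177.BD.t_mah A.det _ h0 hbin (Associated.refl _)
    · refine zero_of_bin hbin (fun h1 => h0 ?_) z hz ?_
      · apply Pool.Agent.Q177.BD.lau_inj
        rw [h1, map_zero]
      · rw [evi_lau, hz0]
  · obtain ⟨K, hK⟩ := sharp f
    obtain ⟨L₀, hL₀⟩ := exists_pow_lt_of_lt_one hε (show (1 / 2 : ℝ) < 1 by norm_num)
    obtain ⟨n, A, -, hA, a, b, hab⟩ := hK (L₀ + 1) (by omega)
    have hle : (1 / 2 : ℝ) ^ (L₀ + 1) ≤ ε := by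
      have h1 : (0 : ℝ) < (1 / 2) ^ L₀ := by positivity
      rw [pow_succ]
      linarith
    have hA' : NormOnCircleLE A (3 / Real.sqrt 2 + ε) := by
      intro z hz v
      refine (hA z hz v).trans (mul_le_mul_of_nonneg_right ?_ (by positivity))
      have h1 : (0 : ℝ) < 3 / Real.sqrt 2 := by positivity
      have h2 : (0 : ℝ) < (1 / 2) ^ (L₀ + 1) := by positivity
      exact pow_le_pow_left₀ (by linarith) (by linarith) 2
    have hM : M A.det = M f := by
      have h1 : M (X ^ a * A.det) = M (X ^ b * f) := by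
        rcases hab with h | h
        · rw [h]
        · rw [h, M_neg]
      rwa [M_mul, M_mul, M_X_pow, M_X_pow, one_mul, one_mul] at h1
    have h2 := h n A hA'
    rw [hM] at h2
    exact h2 hf

end Pool.Agent.Results.MP_dc0c68_nt.NormThreshold
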