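import Mathlib
import Pool.Agent.U218.LD.Cor
import Pool.Agent.TH53.SL5

/-!
# Lehmer's problem for factors over number fields with small local degrees

Let `f` be an irreducible integer polynomial of degree `n` with `M(f) > 1` which has a factor of
degree `D ≥ 1` over a number field `K`, Galois over `ℚ` or not and of arbitrary degree.  There is an
absolute constant `C` with the following property.  Let `m ≥ 1`, `B ≥ C + m ^ 2 + log D`, and suppose
that all but at most `B` of the prime numbers `p ≤ C m ^ 2 B ^ 2 / log B` have the following property: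
the residue degrees of the prime ideals of `K` above `p` divide `m`, and their ramification indices
are at most `m`.  (For `m = 1`: almost all of these primes split completely.)  Then, with
`W = (log B) ^ (m + 2) / ((C m ^ 2) ^ (m + 1) B ^ (2 m + 1))`,

* `M(f) ≥ min (2, exp ((n / D) W))`, and the minimum with `2` is not necessary if `f` is monic;
* `M(f) > M(L)` for Lehmer's polynomial `L` if `4 n W ≥ D log 2`.

So only the primes up to a power of `m + log D` matter, and there is no condition on the Galois closure of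
`K`: the number field may have the full symmetric group as Galois group.

Method: the energy (Vandermonde) proof of Dobrowolski's theorem in the fibres of the
restriction of the embeddings to `K`.  The conjugates of `α` and of `α ^ (p ^ m)` over `K` are
`p`-adically close to each other, because `x ^ (p ^ m) - x` lies in all prime ideals above `p` for all
integers `x` of `K`, and the `m`-th power of their product lies in `(p)`.
-/

set_option autoImplicit false

universe u

open Polynomial NumberField

namespace Pool.Agent.Results.MP_dc0c68_nt.SmallLocalDegrees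

/-- The Mahler measure of an integer polynomial. -/
noncomputable def M (f : ℤ[X]) : ℝ := (f.map (Int.castRingHom ℂ)).mahlerMeasure

/-- Lehmer's polynomial. -/
noncomputable def L : ℤ[X] := X ^ 10 + X ^ 9 - X ^ 7 - X ^ 6 - X ^ 5 - X ^ 4 - X ^ 3 + X + 1

/-- All prime ideals of `K` above `p` have residue degree dividing `m` (that is `x ^ (p ^ m) = x` for
all `x` in the residue field) and ramification index at most `m`. -/
def LocalDegrees (K : Type u) [Field K] [NumberField K] (m p : ℕ) : Prop :=
  ∀ Q : Ideal (𝓞 K), Q.IsPrime → (p : 𝓞 K) ∈ Q →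
    (∀ x : 𝓞 K, x ^ p ^ m - x ∈ Q) ∧ (p : 𝓞 K) ∉ Q ^ (m + 1)

/-- The quantity `(log B) ^ (m + 2) / ((C m ^ 2) ^ (m + 1) B ^ (2 m + 1))`. -/
noncomputable def W (C : ℝ) (m : ℕ) (B : ℝ) : ℝ :=
  Real.log B ^ (m + 2) / ((C * m ^ 2) ^ (m + 1) * B ^ (2 * m + 1))

theorem result : ∃ C : ℝ, 0 < C ∧ ∀ m : ℕ, 0 < m → ∀ f : ℤ[X], Irreducible f → 1 < M f →
    ∀ (K : Type u) [Field K] [NumberField K],
    ∀ g : K[X], g ∣ f.map (Int.castRingHom K) → 0 < g.natDegree →
    ∀ B : ℝ, C + m ^ 2 + Real.log g.natDegree ≤ B →
    (∀ T : Finset ℕ, (∀ p ∈ T, p.Prime ∧ (p : ℝ) ≤ C * m ^ 2 * B ^ 2 / Real.log B ∧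
      ¬ LocalDegrees K m p) → (T.card : ℝ) ≤ B) →
    (f.Monic → Real.exp (f.natDegree / g.natDegree * W C m B) ≤ M f) ∧
    min 2 (Real.exp (f.natDegree / g.natDegree * W C m B)) ≤ M f ∧
    (g.natDegree * Real.log 2 ≤ 4 * f.natDegree * W C m B → M L < M f) := by
  obtain ⟨C, hC, h⟩ := Pool.Agent.U218.LD.final.{u}
  refine ⟨C, by linarith, fun m hm f hf hM K _ _ g hgf hg B hB hT => ?_⟩
  obtain ⟨h1, h2⟩ := (h m hm f hf hM).1 K g hgf hg B hB hT
  refine ⟨h1, h2, fun h3 => ?_⟩
  have hL : M L < (2 : ℝ) ^ ((1 : ℝ) / 4) := Pool.Agent.TH53.SL.lehmer_lt'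
  refine hL.trans_le (le_trans (le_min ?_ ?_) h2)
  · calc (2 : ℝ) ^ ((1 : ℝ) / 4) ≤ (2 : ℝ) ^ (1 : ℝ) :=
          Real.rpow_le_rpow_of_exponent_le (by norm_num) (by norm_num)
      _ = 2 := Real.rpow_one 2
  · rw [Real.rpow_def_of_pos (by norm_num)]
    apply Real.exp_le_exp.mpr
    have hg0 : (0 : ℝ) < g.natDegree := by exact_mod_cast hg
    rw [div_mul_eq_mul_div, le_div_iff₀ hg0]
    change g.natDegree * Real.log 2 ≤ 4 * f.natDegree *
      (Real.log B ^ (m + 2) / ((C * m ^ 2) ^ (m + 1) * B ^ (2 * m + 1))) at h3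
    linarith

end Pool.Agent.Results.MP_dc0c68_nt.SmallLocalDegrees
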